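import Mathlib

set_option autoImplicit false

/-!
Minors isomorphic to the join of `K_2` and `s` independent vertices.
-/

namespace Pool.Agent.MP3d61bb

universe u v

/-- `H` is a minor of `G`: there are pairwise disjoint connected branch sets in `G`, one for each
vertex of `H`, such that adjacent vertices of `H` have branch sets joined by an edge of `G`. -/
def IsMinor {W : Type u} {V : Type v} (H : SimpleGraph W) (G : SimpleGraph V) : Prop :=
  ∃ B : W → Set V, (∀ h, (G.induce (B h)).Connected) ∧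
    (∀ h h', h ≠ h' → Disjoint (B h) (B h')) ∧
    ∀ h h', H.Adj h h' → ∃ x ∈ B h, ∃ y ∈ B h', G.Adj x y

/-- the join of two graphs: their disjoint union together with all edges in between -/
def join {A : Type u} {B : Type v} (G : SimpleGraph A) (H : SimpleGraph B) :
    SimpleGraph (A ⊕ B) :=
  SimpleGraph.sum G H ⊔ completeBipartiteGraph A B

/-- `K_2 + \bar K_s` -/
def K2s (s : ℕ) : SimpleGraph (Fin 2 ⊕ Fin s) :=
  join (⊤ : SimpleGraph (Fin 2)) (⊥ : SimpleGraph (Fin s))

section

variable {V : Type v} [DecidableEq V] {G : SimpleGraph V}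

/-- connectedness of the subgraph induced by a finite set -/
def Conn (G : SimpleGraph V) (S : Finset V) : Prop := (G.induce (S : Set V)).Connected

omit [DecidableEq V] in
theorem Conn.nonempty {S : Finset V} (h : Conn G S) : S.Nonempty := by
  obtain ⟨x⟩ := SimpleGraph.Connected.nonempty h
  exact ⟨x.1, x.2⟩

omit [DecidableEq V] in
theorem conn_singleton (a : V) : Conn G {a} := by
  unfold Conn
  rw [Finset.coe_singleton]
  exact SimpleGraph.connected_iff _ |>.2 ⟨SimpleGraph.Preconnected.of_subsingleton, ⟨⟨a, rfl⟩⟩⟩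

theorem conn_insert {S : Finset V} {a b : V} (h : Conn G S) (ha : a ∈ S) (hab : G.Adj a b) :
    Conn G (insert b S) := by
  unfold Conn at *
  have h2 : (G.induce (({b} : Finset V) : Set V)).Connected := conn_singleton (G := G) b
  have := SimpleGraph.connected_induce_union h.preconnected h2.preconnected
    (Finset.mem_coe.2 ha) (by simp) hab
  rw [Finset.insert_eq, Finset.union_comm, Finset.coe_union]
  exact this

theorem conn_union {S T : Finset V} {w : V} (h : Conn G S) (hw : w ∈ S)
    (hT : ∀ t ∈ T, G.Adj w t) : Conn G (S ∪ T) := by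
  induction T using Finset.induction_on with
  | empty => simpa using h
  | insert t T _ ih =>
    rw [Finset.union_insert]
    exact conn_insert (ih (fun t ht => hT t (Finset.mem_insert_of_mem ht)))
      (Finset.mem_union_left _ hw) (hT t (Finset.mem_insert_self _ _))

omit [DecidableEq V] in
theorem mkMinor {s : ℕ} {X Y T : Finset V} (hX : Conn G X) (hY : Conn G Y)
    (hXY : Disjoint X Y) (hadj : ∃ x ∈ X, ∃ y ∈ Y, G.Adj x y)
    (hT : ∀ t ∈ T, t ∉ X ∧ t ∉ Y ∧ (∃ x ∈ X, G.Adj x t) ∧ ∃ y ∈ Y, G.Adj y t)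
    (hs : s ≤ T.card) : IsMinor (K2s s) G := by
  obtain ⟨f⟩ : Nonempty (Fin s ↪ T) := by
    apply Function.Embedding.nonempty_of_card_le
    simpa using hs
  obtain ⟨x0, hx0, y0, hy0, hxy0⟩ := hadj
  refine ⟨Sum.elim (fun i => if i = 0 then (X : Set V) else (Y : Set V))
    (fun j => {(f j : V)}), ?_, ?_, ?_⟩
  · rintro (i | j)
    · have key : ∀ S : Finset V, Conn G S → ∀ S' : Set V, S' = S → (G.induce S').Connected := by
        rintro S hS S' rfl
        exact hS
      by_cases hi : i = 0
      · exact key X hX _ (by simp [hi])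
      · exact key Y hY _ (by simp [hi])
    · have := conn_singleton (G := G) (f j : V)
      unfold Conn at this
      rw [Finset.coe_singleton] at this
      exact this
  · have hXYs : Disjoint (X : Set V) (Y : Set V) := Finset.disjoint_coe.2 hXY
    rintro (i | j) (i' | j') hne
    · simp only [Sum.elim_inl]
      have hii : i ≠ i' := fun h => hne (by rw [h])
      fin_cases i <;> fin_cases i'
      · exact absurd rfl hii
      · simpa using hXYs
      · simpa using hXYs.symm
      · exact absurd rfl hii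
    · have ht := hT (f j') (f j').2
      simp only [Sum.elim_inl, Sum.elim_inr, Set.disjoint_singleton_right]
      split_ifs
      · exact ht.1
      · exact ht.2.1
    · have ht := hT (f j) (f j).2
      simp only [Sum.elim_inl, Sum.elim_inr, Set.disjoint_singleton_left]
      split_ifs
      · exact ht.1
      · exact ht.2.1
    · simp only [Sum.elim_inr, Set.disjoint_singleton]
      intro h
      apply hne
      have := f.injective (Subtype.ext h)
      rw [this]
  · rintro (i | j) (i' | j') hA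
    · simp only [Sum.elim_inl]
      have hii : i ≠ i' := by
        rintro rfl
        exact hA.ne rfl
      fin_cases i <;> fin_cases i'
      · exact absurd rfl hii
      · exact ⟨x0, by simpa using hx0, y0, by simpa using hy0, hxy0⟩
      · exact ⟨y0, by simpa using hy0, x0, by simpa using hx0, hxy0.symm⟩
      · exact absurd rfl hii
    · obtain ⟨_, _, ⟨x, hx, hxt⟩, ⟨y, hy, hyt⟩⟩ := hT (f j') (f j').2
      simp only [Sum.elim_inl, Sum.elim_inr, Set.mem_singleton_iff, exists_eq_left]
      split_ifs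
      · exact ⟨x, hx, hxt⟩
      · exact ⟨y, hy, hyt⟩
    · obtain ⟨_, _, ⟨x, hx, hxt⟩, ⟨y, hy, hyt⟩⟩ := hT (f j) (f j).2
      simp only [Sum.elim_inl, Sum.elim_inr, Set.mem_singleton_iff, exists_eq_left]
      split_ifs
      · exact ⟨x, hx, hxt.symm⟩
      · exact ⟨y, hy, hyt.symm⟩
    · exfalso
      simp [K2s, join] at hA

variable [DecidableRel G.Adj]

/-- neighbours of `v` inside `W` -/
def nb (G : SimpleGraph V) [DecidableRel G.Adj] (W : Finset V) (v : V) : Finset V :=
  W.filter (fun u => G.Adj v u)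

omit [DecidableEq V] in
theorem mem_nb {W : Finset V} {v x : V} : x ∈ nb G W v ↔ x ∈ W ∧ G.Adj v x := by
  simp [nb]

/-- the separation argument -/
theorem core {s : ℕ} (hmin : ¬ IsMinor (K2s s) G) {W Big D : Finset V} {v : V}
    (hBW : Big ⊆ W) (hDW : D ⊆ W) (hD : Conn G D)
    (hbig : ∀ b ∈ Big, s + 1 ≤ (nb G W b).card)
    (hsep : ∀ D Z : Finset V, D ⊆ W → Z ⊆ W → D.Nonempty → Z.Nonempty → Disjoint D Z →
      (∀ x ∈ D, ∀ z ∈ Z, ¬ G.Adj x z) → 2 ≤ (W \ (D ∪ Z)).card)
    (hv : v ∈ Big) (hvD : v ∉ D) (hvD' : ∀ x ∈ D, ¬ G.Adj v x)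
    (hmax : ∀ b ∈ Big, ∀ D' : Finset V, D ⊆ D' → D' ⊆ W → Conn G D' → b ∉ D' →
      (∀ x ∈ D', ¬ G.Adj b x) → D'.card ≤ D.card)
    (hsmall : ∀ u ∈ W, u ∉ Big → u ∉ D → (∀ x ∈ D, ¬ G.Adj u x) →
      (nb G W u).card = s ∧ nb G W u ⊆ Big) : False := by
  classical
  set M : Finset V := W.filter (fun w => w ∉ D ∧ ∃ x ∈ D, G.Adj x w) with hM
  set Z : Finset V := W.filter (fun z => z ∉ D ∧ ∀ x ∈ D, ¬ G.Adj x z) with hZ
  have hMZ : ∀ x ∈ W, x ∉ D → x ∉ Z → x ∈ M := by
    intro x hx hxD hxZ
    rw [hZ, Finset.mem_filter] at hxZ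
    push Not at hxZ
    rw [hM, Finset.mem_filter]
    exact ⟨hx, hxD, hxZ hx hxD⟩
  have memM : ∀ {x}, x ∈ M → x ∈ W ∧ x ∉ D ∧ ∃ y ∈ D, G.Adj y x := by
    intro x hx
    rw [hM, Finset.mem_filter] at hx
    exact hx
  have memZ : ∀ {x}, x ∈ Z → x ∈ W ∧ x ∉ D ∧ ∀ y ∈ D, ¬ G.Adj y x := by
    intro x hx
    rw [hZ, Finset.mem_filter] at hx
    exact hx
  -- big vertices of Z are joined to M
  have ha : ∀ b ∈ Big, b ∈ Z → ∀ w ∈ M, G.Adj b w := by
    intro b hb hbZ w hw
    by_contra hcon
    obtain ⟨h1, h2, h3⟩ := memZ hbZ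
    obtain ⟨g1, g2, y, hy, hyw⟩ := memM hw
    have := hmax b hb (insert w D) (Finset.subset_insert _ _)
      (Finset.insert_subset g1 hDW) (conn_insert hD hy hyw) (by
        rw [Finset.mem_insert, not_or]
        refine ⟨?_, h2⟩
        rintro rfl
        exact h3 y hy hyw) (by
        intro x hx
        rw [Finset.mem_insert] at hx
        rcases hx with rfl | hx
        · exact hcon
        · exact fun h => h3 x hx h.symm)
    rw [Finset.card_insert_of_notMem g2] at this
    omega
  have hvZ : v ∈ Z := by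
    rw [hZ, Finset.mem_filter]
    exact ⟨hBW hv, hvD, fun x hx h => hvD' x hx h.symm⟩
  have hM2 : 2 ≤ M.card := by
    have := hsep D Z hDW (Finset.filter_subset _ _) hD.nonempty ⟨v, hvZ⟩ (by
      rw [Finset.disjoint_left]
      intro x hx hx'
      exact (memZ hx').2.1 hx) (by
      intro x hx z hz
      exact (memZ hz).2.2 x hx)
    refine this.trans (Finset.card_le_card ?_)
    intro x hx
    rw [Finset.mem_sdiff, Finset.mem_union, not_or] at hx
    exact hMZ x hx.1 hx.2.1 hx.2.2
  -- the branch set `Y w`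
  set Y : V → Finset V := fun w => insert w D ∪ (Z ∩ Big).filter (fun b => b ≠ v ∧ ¬ G.Adj v b)
    with hY
  set T : V → Finset V := fun w => (nb G W v).filter (fun t => t ≠ w ∧ ∃ y ∈ Y w, G.Adj y t)
    with hTdef
  set B : V → Finset V := fun w => (nb G W v).filter (fun t => t ≠ w ∧ ∀ y ∈ Y w, ¬ G.Adj y t)
    with hBdef
  have hDY : ∀ w, D ⊆ Y w := by
    intro w x hx
    rw [hY]
    exact Finset.mem_union_left _ (Finset.mem_insert_of_mem hx)
  have hwY : ∀ w, w ∈ Y w := by
    intro w
    rw [hY]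
    exact Finset.mem_union_left _ (Finset.mem_insert_self _ _)
  have hTle : ∀ w ∈ M, (T w).card + 1 ≤ s := by
    intro w hw
    by_contra hcon
    obtain ⟨g1, g2, y, hy, hyw⟩ := memM hw
    apply hmin
    have hvw := ha v hv hvZ w hw
    apply mkMinor (X := {v}) (Y := Y w) (T := T w) (conn_singleton v)
    · rw [hY]
      apply conn_union (w := w) (conn_insert hD hy hyw) (Finset.mem_insert_self _ _)
      intro b hb
      rw [Finset.mem_filter, Finset.mem_inter] at hb
      exact (ha b hb.1.2 hb.1.1 w hw).symm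
    · rw [Finset.disjoint_singleton_left, hY, Finset.mem_union, not_or, Finset.mem_insert,
        not_or, Finset.mem_filter]
      exact ⟨⟨hvw.ne, hvD⟩, fun h => h.2.1 rfl⟩
    · exact ⟨v, Finset.mem_singleton_self _, w, hwY w, hvw⟩
    · intro t ht
      rw [hTdef] at ht
      simp only [Finset.mem_filter, mem_nb] at ht
      obtain ⟨⟨t1, t2⟩, t3, t4⟩ := ht
      refine ⟨?_, ?_, ⟨v, Finset.mem_singleton_self _, t2⟩, t4⟩
      · rw [Finset.mem_singleton]
        exact t2.ne'
      · rw [hY, Finset.mem_union, not_or, Finset.mem_insert, not_or, Finset.mem_filter]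
        exact ⟨⟨t3, fun h => hvD' t h t2⟩, fun h => h.2.2 t2⟩
    · omega
  have hcard : ∀ w ∈ M, (nb G W v).card ≤ (T w).card + (B w).card + 1 := by
    intro w _
    have : nb G W v ⊆ insert w (T w ∪ B w) := by
      intro t ht
      by_cases h1 : t = w
      · rw [h1]; exact Finset.mem_insert_self _ _
      · apply Finset.mem_insert_of_mem
        rw [Finset.mem_union]
        by_cases h2 : ∃ y ∈ Y w, G.Adj y t
        · left
          rw [hTdef, Finset.mem_filter]
          exact ⟨ht, h1, h2⟩
        · right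
          rw [hBdef, Finset.mem_filter]
          push Not at h2
          exact ⟨ht, h1, h2⟩
    calc (nb G W v).card ≤ (insert w (T w ∪ B w)).card := Finset.card_le_card this
      _ ≤ (T w ∪ B w).card + 1 := Finset.card_insert_le _ _
      _ ≤ (T w).card + (B w).card + 1 := by
        have := Finset.card_union_le (T w) (B w)
        omega
  have hBne : ∀ w ∈ M, (B w).Nonempty := by
    intro w hw
    rw [← Finset.card_pos]
    have h1 := hcard w hw
    have h2 := hTle w hw
    have h3 := hbig v hv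
    omega
  -- structure of `B w`
  have hBs : ∀ w ∈ M, ∀ t ∈ B w, t ∉ Big ∧ t ∈ Z ∧ T w ⊆ nb G W t ∧ nb G W t ⊆ Big := by
    intro w hw t ht
    rw [hBdef] at ht
    simp only [Finset.mem_filter, mem_nb] at ht
    obtain ⟨⟨t1, t2⟩, t3, t4⟩ := ht
    have htD : t ∉ D := fun h => hvD' t h t2
    have htn : ∀ x ∈ D, ¬ G.Adj x t := fun x hx => t4 x (hDY w hx)
    have htZ : t ∈ Z := by
      rw [hZ, Finset.mem_filter]
      exact ⟨t1, htD, htn⟩
    have htB : t ∉ Big := by
      intro h
      exact t4 w (hwY w) (ha t h htZ w hw).symm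
    obtain ⟨s1, s2⟩ := hsmall t t1 htB htD (fun x hx h => htn x hx h.symm)
    have hsub : nb G W t ⊆ insert v (T w) := by
      intro x hx
      have hxB := s2 hx
      rw [mem_nb] at hx
      obtain ⟨hxW, htx⟩ := hx
      by_cases hxv : x = v
      · rw [hxv]; exact Finset.mem_insert_self _ _
      · apply Finset.mem_insert_of_mem
        have hxY : x ∉ Y w := fun h => t4 x h htx.symm
        have hxw : x ≠ w := by
          rintro rfl
          exact hxY (hwY x)
        have hxD : x ∉ D := fun h => hxY (hDY w h)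
        have hvx : G.Adj v x := by
          by_cases hxZ : x ∈ Z
          · by_contra hcon
            apply hxY
            rw [hY]
            apply Finset.mem_union_right
            rw [Finset.mem_filter, Finset.mem_inter]
            exact ⟨⟨hxZ, hxB⟩, hxv, hcon⟩
          · exact ha v hv hvZ x (hMZ x hxW hxD hxZ)
        rw [hTdef, Finset.mem_filter, mem_nb]
        refine ⟨⟨hxW, hvx⟩, hxw, ?_⟩
        by_cases hxZ : x ∈ Z
        · exact ⟨w, hwY w, (ha x hxB hxZ w hw).symm⟩
        · obtain ⟨_, _, y, hy, hyx⟩ := memM (hMZ x hxW hxD hxZ)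
          exact ⟨y, hDY w hy, hyx⟩
    have heq : nb G W t = insert v (T w) := by
      apply Finset.eq_of_subset_of_card_le hsub
      rw [s1]
      have h1 := hTle w hw
      have h2 := Finset.card_insert_le v (T w)
      omega
    refine ⟨htB, htZ, ?_, s2⟩
    rw [heq]
    exact Finset.subset_insert _ _
  obtain ⟨w, hw, w', hw', hne⟩ := Finset.one_lt_card.1 (show 1 < M.card by omega)
  obtain ⟨t, ht⟩ := hBne w hw
  obtain ⟨t', ht'⟩ := hBne w' hw'
  obtain ⟨b1, b2, b3, b4⟩ := hBs w hw t ht
  obtain ⟨b1', b2', b3', b4'⟩ := hBs w' hw' t' ht'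
  -- `w' ∈ T w`, so `t ~ w'`
  have h1 : w' ∈ T w := by
    rw [hTdef, Finset.mem_filter, mem_nb]
    obtain ⟨g1, g2, y, hy, hyw⟩ := memM hw'
    exact ⟨⟨g1, ha v hv hvZ w' hw'⟩, fun h => hne h.symm, y, hDY w hy, hyw⟩
  have h2 : G.Adj t w' := (mem_nb.1 (b3 h1)).2
  -- so `t ∈ T w'`
  have h3 : t ∈ T w' := by
    rw [hBdef] at ht
    simp only [Finset.mem_filter] at ht
    rw [hTdef, Finset.mem_filter]
    refine ⟨ht.1, ?_, w', hwY w', h2.symm⟩
    rintro rfl
    obtain ⟨_, _, y, hy, hyw⟩ := memM hw'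
    exact (memZ b2).2.2 y hy hyw
  exact b1 (b4' (b3' h3))

end

end Pool.Agent.MP3d61bb
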