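import Pool.Agent.Lib.MP_3d61bb_co.Star

set_option autoImplicit false

/-! Every graph with no `K_2 + \bar K_s` minor is `(s,1)*`-choosable. -/

namespace Pool.Agent.MP3d61bb.DefectOne

universe u v

open Pool.Agent.MP3d61bb

/-- `G` is `(k,d)*`-choosable: for every assignment of a set of exactly `k` colours to each vertex
there is a choice of colours from these sets such that every vertex has at most `d` neighbours of
its own colour. -/
def Choosable {V : Type u} (G : SimpleGraph V) (k d : ℕ) : Prop :=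
  ∀ (C : Type v) (L : V → Finset C), (∀ x, (L x).card = k) →
    ∃ φ : V → C, (∀ x, φ x ∈ L x) ∧ ∀ x, {y | G.Adj x y ∧ φ y = φ x}.ncard ≤ d

section

variable {V : Type u} [DecidableEq V] {G : SimpleGraph V} [DecidableRel G.Adj]

/-- colouring with a precoloured vertex without defect -/
theorem colour {s : ℕ} (hs : 2 ≤ s) (hmin : ¬ IsMinor (K2s s) G) {C : Type v} [DecidableEq C]
    (L : V → Finset C) (hL : ∀ x, s ≤ (L x).card) :
    ∀ n : ℕ, ∀ W : Finset V, W.card = n → ∀ c ∈ W, ∀ a ∈ L c, ∃ φ : V → C,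
      (∀ x ∈ W, φ x ∈ L x) ∧ φ c = a ∧ (∀ y ∈ W, G.Adj c y → φ y ≠ a) ∧
      ∀ x ∈ W, ((nb G W x).filter (fun y => φ y = φ x)).card ≤ 1 := by
  intro n
  induction n using Nat.strong_induction_on with
  | _ n ih =>
  intro W hWn c hc a hac
  -- a colour avoiding a small set
  have avoid : ∀ (x : V) (S : Finset V) (φ : V → C), S.card < s →
      ∃ γ ∈ L x, ∀ y ∈ S, φ y ≠ γ := by
    intro x S φ hS
    have : ((L x) \ (S.image φ)).Nonempty := by
      rw [← Finset.card_pos]
      have h1 := Finset.le_card_sdiff (S.image φ) (L x)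
      have h2 := Finset.card_image_le (s := S) (f := φ)
      have h3 := hL x
      omega
    obtain ⟨γ, hγ⟩ := this
    rw [Finset.mem_sdiff] at hγ
    refine ⟨γ, hγ.1, ?_⟩
    intro y hy h
    exact hγ.2 (Finset.mem_image.2 ⟨y, hy, h⟩)
  by_cases hW1 : ∀ v ∈ W, v = c
  · refine ⟨fun _ => a, ?_, rfl, ?_, ?_⟩
    · intro x hx
      rw [hW1 x hx]; exact hac
    · intro y hy hcy
      rw [hW1 y hy] at hcy
      exact absurd rfl hcy.ne
    · intro x hx
      have : nb G W x = ∅ := by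
        rw [Finset.eq_empty_iff_forall_notMem]
        intro y hy
        rw [mem_nb] at hy
        have e1 := hW1 x hx
        have e2 := hW1 y hy.1
        exact hy.2.ne (e1.trans e2.symm)
      rw [this]
      simp
  push Not at hW1
  by_cases h1 : ∃ v ∈ W, v ≠ c ∧ (nb G W v).card < s
  · -- a vertex of small degree
    obtain ⟨v, hv, hvc, hvs⟩ := h1
    obtain ⟨φ, p1, p2, p3, p4⟩ := ih (W.erase v).card
      (by rw [Finset.card_erase_of_mem hv]; have := Finset.card_pos.2 ⟨v, hv⟩; omega)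
      (W.erase v) rfl c (Finset.mem_erase.2 ⟨hvc.symm, hc⟩) a hac
    obtain ⟨γ, hγ, hγ'⟩ := avoid v (nb G W v) φ hvs
    refine ⟨Function.update φ v γ, ?_, ?_, ?_, ?_⟩
    · intro x hx
      by_cases hxv : x = v
      · rw [hxv, Function.update_self]; exact hγ
      · rw [Function.update_of_ne hxv]
        exact p1 x (Finset.mem_erase.2 ⟨hxv, hx⟩)
    · rw [Function.update_of_ne hvc.symm]; exact p2
    · intro y hy hcy
      by_cases hyv : y = v
      · rw [hyv, Function.update_self]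
        have := hγ' c (mem_nb.2 ⟨hc, hyv ▸ hcy.symm⟩)
        rw [p2] at this
        exact this.symm
      · rw [Function.update_of_ne hyv]
        exact p3 y (Finset.mem_erase.2 ⟨hyv, hy⟩) hcy
    · intro x hx
      by_cases hxv : x = v
      · have : (nb G W x).filter (fun y => Function.update φ v γ y = Function.update φ v γ x)
            = ∅ := by
          rw [Finset.eq_empty_iff_forall_notMem]
          intro y hy
          rw [Finset.mem_filter, hxv, mem_nb] at hy
          obtain ⟨⟨y1, y2⟩, y3⟩ := hy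
          rw [Function.update_self, Function.update_of_ne y2.ne'] at y3
          exact hγ' y (mem_nb.2 ⟨y1, y2⟩) y3
        rw [this]; simp
      · refine (Finset.card_le_card ?_).trans (p4 x (Finset.mem_erase.2 ⟨hxv, hx⟩))
        intro y hy
        rw [Finset.mem_filter, mem_nb, Function.update_of_ne hxv] at hy
        obtain ⟨⟨y1, y2⟩, y3⟩ := hy
        have hyv : y ≠ v := by
          rintro rfl
          rw [Function.update_self] at y3
          exact hγ' x (mem_nb.2 ⟨hx, y2.symm⟩) y3.symm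
        rw [Function.update_of_ne hyv] at y3
        rw [Finset.mem_filter, mem_nb]
        exact ⟨⟨Finset.mem_erase.2 ⟨hyv, y1⟩, y2⟩, y3⟩
  push Not at h1
  by_cases h2 : ∃ u ∈ W, ∃ v ∈ W, u ≠ c ∧ v ≠ c ∧ (nb G W u).card ≤ s ∧
      (nb G W v).card ≤ s ∧ G.Adj u v
  · -- two adjacent vertices of degree at most `s`
    obtain ⟨u, hu, v, hv, huc, hvc, hus, hvs, huv⟩ := h2
    have hcard2 : ((W.erase u).erase v).card < n := by
      rw [Finset.card_erase_of_mem (Finset.mem_erase.2 ⟨huv.ne', hv⟩),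
        Finset.card_erase_of_mem hu]
      have := Finset.card_pos.2 ⟨v, hv⟩
      omega
    obtain ⟨φ, p1, p2, p3, p4⟩ := ih _ hcard2 ((W.erase u).erase v) rfl c
      (Finset.mem_erase.2 ⟨hvc.symm, Finset.mem_erase.2 ⟨huc.symm, hc⟩⟩) a hac
    obtain ⟨γu, hγu, hγu'⟩ := avoid u ((nb G W u).erase v) φ (by
      rw [Finset.card_erase_of_mem (mem_nb.2 ⟨hv, huv⟩)]
      have := Finset.card_pos.2 ⟨v, mem_nb.2 ⟨hv, huv⟩⟩
      omega)
    obtain ⟨γv, hγv, hγv'⟩ := avoid v ((nb G W v).erase u) φ (by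
      rw [Finset.card_erase_of_mem (mem_nb.2 ⟨hu, huv.symm⟩)]
      have := Finset.card_pos.2 ⟨u, mem_nb.2 ⟨hu, huv.symm⟩⟩
      omega)
    set ψ : V → C := Function.update (Function.update φ u γu) v γv with hψ
    have ψu : ψ u = γu := by
      rw [hψ, Function.update_of_ne huv.ne, Function.update_self]
    have ψv : ψ v = γv := by
      rw [hψ, Function.update_self]
    have ψo : ∀ x, x ≠ u → x ≠ v → ψ x = φ x := by
      intro x hxu hxv
      rw [hψ, Function.update_of_ne hxv, Function.update_of_ne hxu]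
    refine ⟨ψ, ?_, ?_, ?_, ?_⟩
    · intro x hx
      by_cases hxv : x = v
      · rw [hxv, ψv]; exact hγv
      by_cases hxu : x = u
      · rw [hxu, ψu]; exact hγu
      rw [ψo x hxu hxv]
      exact p1 x (Finset.mem_erase.2 ⟨hxv, Finset.mem_erase.2 ⟨hxu, hx⟩⟩)
    · rw [ψo c huc.symm hvc.symm]; exact p2
    · intro y hy hcy
      by_cases hyv : y = v
      · subst hyv
        rw [ψv]
        have := hγv' c (Finset.mem_erase.2 ⟨huc.symm, mem_nb.2 ⟨hc, hcy.symm⟩⟩)
        rw [p2] at this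
        exact this.symm
      by_cases hyu : y = u
      · subst hyu
        rw [ψu]
        have := hγu' c (Finset.mem_erase.2 ⟨hvc.symm, mem_nb.2 ⟨hc, hcy.symm⟩⟩)
        rw [p2] at this
        exact this.symm
      rw [ψo y hyu hyv]
      exact p3 y (Finset.mem_erase.2 ⟨hyv, Finset.mem_erase.2 ⟨hyu, hy⟩⟩) hcy
    · intro x hx
      by_cases hxv : x = v
      · subst hxv
        have : (nb G W x).filter (fun y => ψ y = ψ x) ⊆ {u} := by
          intro y hy
          rw [Finset.mem_filter, mem_nb] at hy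
          obtain ⟨⟨y1, y2⟩, y3⟩ := hy
          rw [Finset.mem_singleton]
          by_contra hyu
          rw [ψv, ψo y hyu y2.ne'] at y3
          exact hγv' y (Finset.mem_erase.2 ⟨hyu, mem_nb.2 ⟨y1, y2⟩⟩) y3
        exact (Finset.card_le_card this).trans (by simp)
      by_cases hxu : x = u
      · subst hxu
        have : (nb G W x).filter (fun y => ψ y = ψ x) ⊆ {v} := by
          intro y hy
          rw [Finset.mem_filter, mem_nb] at hy
          obtain ⟨⟨y1, y2⟩, y3⟩ := hy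
          rw [Finset.mem_singleton]
          by_contra hyv
          rw [ψu, ψo y y2.ne' hyv] at y3
          exact hγu' y (Finset.mem_erase.2 ⟨hyv, mem_nb.2 ⟨y1, y2⟩⟩) y3
        exact (Finset.card_le_card this).trans (by simp)
      refine (Finset.card_le_card ?_).trans
        (p4 x (Finset.mem_erase.2 ⟨hxv, Finset.mem_erase.2 ⟨hxu, hx⟩⟩))
      intro y hy
      rw [Finset.mem_filter, mem_nb, ψo x hxu hxv] at hy
      obtain ⟨⟨y1, y2⟩, y3⟩ := hy
      have hyv : y ≠ v := by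
        rintro rfl
        rw [ψv] at y3
        exact hγv' x (Finset.mem_erase.2 ⟨hxu, mem_nb.2 ⟨hx, y2.symm⟩⟩) y3.symm
      have hyu : y ≠ u := by
        rintro rfl
        rw [ψu] at y3
        exact hγu' x (Finset.mem_erase.2 ⟨hxv, mem_nb.2 ⟨hx, y2.symm⟩⟩) y3.symm
      rw [ψo y hyu hyv] at y3
      rw [Finset.mem_filter, mem_nb]
      exact ⟨⟨Finset.mem_erase.2 ⟨hyv, Finset.mem_erase.2 ⟨hyu, y1⟩⟩, y2⟩, y3⟩
  push Not at h2
  by_cases h3 : ∃ D Z : Finset V, D ⊆ W ∧ Z ⊆ W ∧ D.Nonempty ∧ Z.Nonempty ∧ Disjoint D Z ∧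
      (∀ x ∈ D, ∀ z ∈ Z, ¬ G.Adj x z) ∧ (W \ (D ∪ Z)).card ≤ 1
  · -- a separation of order at most one
    have h4 : ∃ D Z : Finset V, D ⊆ W ∧ Z ⊆ W ∧ D.Nonempty ∧ Z.Nonempty ∧ Disjoint D Z ∧
      (∀ x ∈ D, ∀ z ∈ Z, ¬ G.Adj x z) ∧ (W \ (D ∪ Z)).card ≤ 1 ∧ c ∉ Z := by
      obtain ⟨D, Z, d1, d2, d3, d4, d5, d6, d7⟩ := h3
      by_cases hcZ : c ∈ Z
      · refine ⟨Z, D, d2, d1, d4, d3, d5.symm, ?_, ?_, ?_⟩
        · intro x hx z hz h
          exact d6 z hz x hx h.symm
        · rw [Finset.union_comm]; exact d7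
        · exact fun h => Finset.disjoint_left.1 d5 h hcZ
      · exact ⟨D, Z, d1, d2, d3, d4, d5, d6, d7, hcZ⟩
    obtain ⟨D, Z, d1, d2, d3, d4, d5, d6, d7, hcZ⟩ := h4
    have hDZ : ∀ x ∈ D, x ∉ Z := fun x hx hx' => Finset.disjoint_left.1 d5 hx hx'
    have card1 : (W \ Z).card < n := by
      rw [← hWn]
      apply Finset.card_lt_card
      exact Finset.sdiff_ssubset d2 d4
    have card2 : (W \ D).card < n := by
      rw [← hWn]
      apply Finset.card_lt_card
      exact Finset.sdiff_ssubset d1 d3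
    obtain ⟨φ, p1, p2, p3, p4⟩ := ih _ card1 (W \ Z) rfl c
      (Finset.mem_sdiff.2 ⟨hc, hcZ⟩) a hac
    -- colouring of `W \ D`, compatible with `φ` on the separator
    have hφ2 : ∃ φ2 : V → C, (∀ x ∈ W \ D, φ2 x ∈ L x) ∧
        (∀ x ∈ W \ D, ((nb G (W \ D) x).filter (fun y => φ2 y = φ2 x)).card ≤ 1) ∧
        ∀ w ∈ W, w ∉ D → w ∉ Z → φ2 w = φ w ∧ ∀ y ∈ W \ D, G.Adj w y → φ2 y ≠ φ w := by
      by_cases hR : (W \ (D ∪ Z)).Nonempty
      · obtain ⟨w, hw⟩ := hR
        rw [Finset.mem_sdiff, Finset.mem_union, not_or] at hw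
        obtain ⟨w1, w2, w3⟩ := hw
        obtain ⟨φ2, q1, q2, q3, q4⟩ := ih _ card2 (W \ D) rfl w
          (Finset.mem_sdiff.2 ⟨w1, w2⟩) (φ w) (p1 w (Finset.mem_sdiff.2 ⟨w1, w3⟩))
        refine ⟨φ2, q1, q4, ?_⟩
        intro w' w1' w2' w3'
        have : w' = w := by
          apply Finset.card_le_one.1 d7
          · rw [Finset.mem_sdiff, Finset.mem_union, not_or]
            exact ⟨w1', w2', w3'⟩
          · rw [Finset.mem_sdiff, Finset.mem_union, not_or]
            exact ⟨w1, w2, w3⟩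
        subst this
        exact ⟨q2, q3⟩
      · obtain ⟨z, hz⟩ := d4
        have hzD : z ∉ D := fun h => hDZ z h hz
        obtain ⟨γ, hγ⟩ : (L z).Nonempty := by
          rw [← Finset.card_pos]
          have := hL z
          omega
        obtain ⟨φ2, q1, q2, q3, q4⟩ := ih _ card2 (W \ D) rfl z
          (Finset.mem_sdiff.2 ⟨d2 hz, hzD⟩) γ hγ
        refine ⟨φ2, q1, q4, ?_⟩
        intro w' w1' w2' w3'
        exfalso
        apply hR
        refine ⟨w', ?_⟩
        rw [Finset.mem_sdiff, Finset.mem_union, not_or]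
        exact ⟨w1', w2', w3'⟩
    obtain ⟨φ2, q1, q2, q3⟩ := hφ2
    set ψ : V → C := fun x => if x ∈ Z then φ2 x else φ x with hψ
    have ψ1 : ∀ x, x ∉ Z → ψ x = φ x := by
      intro x hx
      rw [hψ]; simp [hx]
    have ψ2 : ∀ x ∈ W, x ∉ D → ψ x = φ2 x := by
      intro x hx hxD
      by_cases hxZ : x ∈ Z
      · rw [hψ]; simp [hxZ]
      · rw [ψ1 x hxZ, (q3 x hx hxD hxZ).1]
    refine ⟨ψ, ?_, ?_, ?_, ?_⟩
    · intro x hx
      by_cases hxZ : x ∈ Z
      · have hxD : x ∉ D := fun h => hDZ x h hxZ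
        rw [ψ2 x hx hxD]
        exact q1 x (Finset.mem_sdiff.2 ⟨hx, hxD⟩)
      · rw [ψ1 x hxZ]
        exact p1 x (Finset.mem_sdiff.2 ⟨hx, hxZ⟩)
    · rw [ψ1 c hcZ]; exact p2
    · intro y hy hcy
      by_cases hyZ : y ∈ Z
      · have hyD : y ∉ D := fun h => hDZ y h hyZ
        have hcD : c ∉ D := fun h => d6 c h y hyZ hcy
        rw [ψ2 y hy hyD]
        have := (q3 c hc hcD hcZ).2 y (Finset.mem_sdiff.2 ⟨hy, hyD⟩) hcy
        rw [p2] at this
        exact this
      · rw [ψ1 y hyZ]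
        exact p3 y (Finset.mem_sdiff.2 ⟨hy, hyZ⟩) hcy
    · intro x hx
      by_cases hxZ : x ∈ Z
      · have hxD : x ∉ D := fun h => hDZ x h hxZ
        refine (Finset.card_le_card ?_).trans (q2 x (Finset.mem_sdiff.2 ⟨hx, hxD⟩))
        intro y hy
        rw [Finset.mem_filter, mem_nb] at hy
        obtain ⟨⟨y1, y2⟩, y3⟩ := hy
        have hyD : y ∉ D := fun h => d6 y h x hxZ y2.symm
        rw [ψ2 y y1 hyD, ψ2 x hx hxD] at y3
        rw [Finset.mem_filter, mem_nb]
        exact ⟨⟨Finset.mem_sdiff.2 ⟨y1, hyD⟩, y2⟩, y3⟩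
      · refine (Finset.card_le_card ?_).trans (p4 x (Finset.mem_sdiff.2 ⟨hx, hxZ⟩))
        intro y hy
        rw [Finset.mem_filter, mem_nb] at hy
        obtain ⟨⟨y1, y2⟩, y3⟩ := hy
        have hyZ : y ∉ Z := by
          intro hyZ
          have hxD : x ∉ D := fun h => d6 x h y hyZ y2
          have hyD : y ∉ D := fun h => hDZ y h hyZ
          rw [ψ2 y y1 hyD, ψ1 x hxZ] at y3
          exact (q3 x hx hxD hxZ).2 y (Finset.mem_sdiff.2 ⟨y1, hyD⟩) y2 y3
        rw [ψ1 y hyZ, ψ1 x hxZ] at y3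
        rw [Finset.mem_filter, mem_nb]
        exact ⟨⟨Finset.mem_sdiff.2 ⟨y1, hyZ⟩, y2⟩, y3⟩
  -- otherwise there is a minor
  push Not at h3
  exfalso
  refine star hs hmin hc hW1 h1 ?_ ?_
  · intro u hu v hv huc hvc hus hvs huv
    exact h2 u hu v hv huc hvc hus hvs huv
  · intro D Z g1 g2 g3 g4 g5 g6
    exact h3 D Z g1 g2 g3 g4 g5 g6

end

/-- **Main theorem.** For every `s ≥ 2`, every finite graph with no `K_2 + \bar K_s` minor is
`(s,1)*`-choosable. -/
theorem result (s : ℕ) (hs : 2 ≤ s) (V : Type u) [Finite V] (G : SimpleGraph V)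
    (hG : ¬ IsMinor (K2s s) G) : Choosable.{u, v} G s 1 := by
  classical
  intro C L hL
  have := Fintype.ofFinite V
  rcases isEmpty_or_nonempty V with hV | ⟨⟨c⟩⟩
  · exact ⟨fun x => (hV.false x).elim, fun x => (hV.false x).elim, fun x => (hV.false x).elim⟩
  · obtain ⟨a, ha⟩ : (L c).Nonempty := by
      rw [← Finset.card_pos, hL c]
      omega
    obtain ⟨φ, p1, _, _, p4⟩ := colour hs hG L (fun x => (hL x).ge) _ Finset.univ rfl c
      (Finset.mem_univ _) a ha
    refine ⟨φ, fun x => p1 x (Finset.mem_univ _), ?_⟩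
    intro x
    have h1 := p4 x (Finset.mem_univ _)
    rw [← Set.ncard_coe_finset] at h1
    convert h1 using 2
    ext y
    simp [nb]

end Pool.Agent.MP3d61bb.DefectOne
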