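import Pool.Agent.Lib.MP_3d61bb_co.Core

set_option autoImplicit false

/-!
A graph without cut vertices in which all vertices except possibly one have degree at least `s` and
the vertices of degree `s` are pairwise non-adjacent has a `K_2 + \bar K_s` minor.
-/

namespace Pool.Agent.MP3d61bb

universe v

variable {V : Type v} [DecidableEq V] {G : SimpleGraph V} [DecidableRel G.Adj]

omit [DecidableRel G.Adj] in
theorem adj_all_minor {s : ℕ} {W : Finset V} {x y : V} (hx : x ∈ W) (hy : y ∈ W)
    (hxy : G.Adj x y) (hax : ∀ t ∈ W, t ≠ x → G.Adj x t) (hay : ∀ t ∈ W, t ≠ y → G.Adj y t)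
    (hc : s + 2 ≤ W.card) : IsMinor (K2s s) G := by
  apply mkMinor (X := {x}) (Y := {y}) (T := (W.erase x).erase y) (conn_singleton x)
    (conn_singleton y)
  · rw [Finset.disjoint_singleton]; exact hxy.ne
  · exact ⟨x, Finset.mem_singleton_self _, y, Finset.mem_singleton_self _, hxy⟩
  · intro t ht
    rw [Finset.mem_erase, Finset.mem_erase] at ht
    rw [Finset.mem_singleton, Finset.mem_singleton]
    exact ⟨ht.2.1, ht.1, ⟨x, Finset.mem_singleton_self _, hax t ht.2.2 ht.2.1⟩,
      ⟨y, Finset.mem_singleton_self _, hay t ht.2.2 ht.1⟩⟩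
  · rw [Finset.card_erase_of_mem (Finset.mem_erase.2 ⟨hxy.ne', hy⟩), Finset.card_erase_of_mem hx]
    omega

/-- the case in which the outer vertices are all joined to the `s` big vertices -/
theorem outer_minor {s : ℕ} (hs : 2 ≤ s) {Big O : Finset V} (hdis : Disjoint Big O)
    (hB : Big.card = s) (hO : 2 ≤ O.card) (hOB : ∀ o ∈ O, ∀ x ∈ Big, G.Adj o x)
    (hdeg : ∀ x ∈ Big, s + 1 ≤ (nb G Big x).card + O.card) : IsMinor (K2s s) G := by
  have hno : ∀ x ∈ Big, x ∉ O := fun x hx hx' => Finset.disjoint_left.1 hdis hx hx'
  by_cases h4 : 4 ≤ O.card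
  · obtain ⟨x, hx, y, hy, hxy⟩ := Finset.one_lt_card.1 (show 1 < Big.card by omega)
    obtain ⟨o1, ho1, o2, ho2, ho12⟩ := Finset.one_lt_card.1 (show 1 < O.card by omega)
    apply mkMinor (X := insert o1 {x}) (Y := insert o2 {y})
      (T := ((Big.erase x).erase y) ∪ ((O.erase o1).erase o2))
      (conn_insert (conn_singleton x) (Finset.mem_singleton_self _) (hOB o1 ho1 x hx).symm)
      (conn_insert (conn_singleton y) (Finset.mem_singleton_self _) (hOB o2 ho2 y hy).symm)
    · rw [Finset.disjoint_left]
      intro z hz hz'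
      rw [Finset.mem_insert, Finset.mem_singleton] at hz hz'
      rcases hz with rfl | rfl <;> rcases hz' with h | h
      · exact ho12 h
      · exact hno y hy (h ▸ ho1)
      · exact hno z hx (h ▸ ho2)
      · exact hxy h
    · exact ⟨x, by simp, o2, by simp, (hOB o2 ho2 x hx).symm⟩
    · intro t ht
      rw [Finset.mem_union, Finset.mem_erase, Finset.mem_erase, Finset.mem_erase,
        Finset.mem_erase] at ht
      rcases ht with ⟨t1, t2, t3⟩ | ⟨t1, t2, t3⟩
      · refine ⟨?_, ?_, ⟨o1, by simp, hOB o1 ho1 t t3⟩, ⟨o2, by simp, hOB o2 ho2 t t3⟩⟩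
        · rw [Finset.mem_insert, Finset.mem_singleton, not_or]
          exact ⟨fun h => hno t t3 (h ▸ ho1), t2⟩
        · rw [Finset.mem_insert, Finset.mem_singleton, not_or]
          exact ⟨fun h => hno t t3 (h ▸ ho2), t1⟩
      · refine ⟨?_, ?_, ⟨x, by simp, (hOB t t3 x hx).symm⟩, ⟨y, by simp, (hOB t t3 y hy).symm⟩⟩
        · rw [Finset.mem_insert, Finset.mem_singleton, not_or]
          exact ⟨t2, fun h => hno x hx (h ▸ t3)⟩
        · rw [Finset.mem_insert, Finset.mem_singleton, not_or]
          exact ⟨t1, fun h => hno y hy (h ▸ t3)⟩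
    · rw [Finset.card_union_of_disjoint, Finset.card_erase_of_mem
        (Finset.mem_erase.2 ⟨fun h => hxy h.symm, hy⟩),
        Finset.card_erase_of_mem hx, Finset.card_erase_of_mem
        (Finset.mem_erase.2 ⟨fun h => ho12 h.symm, ho2⟩), Finset.card_erase_of_mem ho1]
      · omega
      · rw [Finset.disjoint_left]
        intro z hz hz'
        exact hno z (Finset.mem_of_mem_erase (Finset.mem_of_mem_erase hz))
          (Finset.mem_of_mem_erase (Finset.mem_of_mem_erase hz'))
  · by_cases hcl : ∀ x ∈ Big, ∀ y ∈ Big, x ≠ y → G.Adj x y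
    · obtain ⟨x, hx, y, hy, hxy⟩ := Finset.one_lt_card.1 (show 1 < Big.card by omega)
      apply adj_all_minor (W := Big ∪ O) (Finset.mem_union_left _ hx)
        (Finset.mem_union_left _ hy) (hcl x hx y hy hxy)
      · intro t ht htx
        rw [Finset.mem_union] at ht
        rcases ht with ht | ht
        · exact hcl x hx t ht (Ne.symm htx)
        · exact (hOB t ht x hx).symm
      · intro t ht htx
        rw [Finset.mem_union] at ht
        rcases ht with ht | ht
        · exact hcl y hy t ht (Ne.symm htx)
        · exact (hOB t ht y hy).symm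
      · rw [Finset.card_union_of_disjoint hdis]
        omega
    · push Not at hcl
      obtain ⟨x, hx, y, hy, hxy, hnadj⟩ := hcl
      have hsub : nb G Big x ⊆ (Big.erase x).erase y := by
        intro t ht
        rw [mem_nb] at ht
        rw [Finset.mem_erase, Finset.mem_erase]
        exact ⟨fun h => hnadj (h ▸ ht.2), ht.2.ne', ht.1⟩
      have hcard : ((Big.erase x).erase y).card = s - 2 := by
        rw [Finset.card_erase_of_mem (Finset.mem_erase.2 ⟨fun h => hxy h.symm, hy⟩),
          Finset.card_erase_of_mem hx]
        omega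
      have hd := hdeg x hx
      have heq : nb G Big x = (Big.erase x).erase y := by
        apply Finset.eq_of_subset_of_card_le hsub
        omega
      obtain ⟨o1, ho1⟩ : O.Nonempty := by
        rw [← Finset.card_pos]; omega
      apply mkMinor (X := {x}) (Y := insert o1 {y})
        (T := ((Big.erase x).erase y) ∪ (O.erase o1)) (conn_singleton x)
        (conn_insert (conn_singleton y) (Finset.mem_singleton_self _) (hOB o1 ho1 y hy).symm)
      · rw [Finset.disjoint_singleton_left, Finset.mem_insert, Finset.mem_singleton, not_or]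
        exact ⟨fun h => hno x hx (h ▸ ho1), hxy⟩
      · exact ⟨x, by simp, o1, by simp, (hOB o1 ho1 x hx).symm⟩
      · intro t ht
        rw [Finset.mem_union] at ht
        rcases ht with ht | ht
        · have ht' := ht
          rw [Finset.mem_erase, Finset.mem_erase] at ht
          rw [← heq, mem_nb] at ht'
          refine ⟨?_, ?_, ⟨x, by simp, ht'.2⟩, ⟨o1, by simp, hOB o1 ho1 t ht.2.2⟩⟩
          · rw [Finset.mem_singleton]; exact ht.2.1
          · rw [Finset.mem_insert, Finset.mem_singleton, not_or]
            exact ⟨fun h => hno t ht.2.2 (h ▸ ho1), ht.1⟩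
        · rw [Finset.mem_erase] at ht
          refine ⟨?_, ?_, ⟨x, by simp, (hOB t ht.2 x hx).symm⟩,
            ⟨y, by simp, (hOB t ht.2 y hy).symm⟩⟩
          · rw [Finset.mem_singleton]
            exact fun h => hno x hx (h ▸ ht.2)
          · rw [Finset.mem_insert, Finset.mem_singleton, not_or]
            exact ⟨ht.1, fun h => hno y hy (h ▸ ht.2)⟩
      · rw [Finset.card_union_of_disjoint, hcard, Finset.card_erase_of_mem ho1]
        · have h5 : (nb G Big x).card = s - 2 := by rw [heq, hcard]
          omega
        · rw [Finset.disjoint_left]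
          intro z hz hz'
          exact hno z (Finset.mem_of_mem_erase (Finset.mem_of_mem_erase hz))
            (Finset.mem_of_mem_erase hz')

theorem star {s : ℕ} (hs : 2 ≤ s) (hmin : ¬ IsMinor (K2s s) G) {W : Finset V} {c : V}
    (hc : c ∈ W) (hW : ∃ v ∈ W, v ≠ c)
    (hdeg : ∀ v ∈ W, v ≠ c → s ≤ (nb G W v).card)
    (hind : ∀ u ∈ W, ∀ v ∈ W, u ≠ c → v ≠ c → (nb G W u).card ≤ s → (nb G W v).card ≤ s →
      ¬ G.Adj u v)
    (hsep : ∀ D Z : Finset V, D ⊆ W → Z ⊆ W → D.Nonempty → Z.Nonempty → Disjoint D Z →
      (∀ x ∈ D, ∀ z ∈ Z, ¬ G.Adj x z) → 2 ≤ (W \ (D ∪ Z)).card) : False := by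
  classical
  set Big : Finset V := W.filter (fun v => v ≠ c ∧ s + 1 ≤ (nb G W v).card) with hBig
  have memBig : ∀ {x}, x ∈ Big ↔ x ∈ W ∧ x ≠ c ∧ s + 1 ≤ (nb G W x).card := by
    intro x
    rw [hBig, Finset.mem_filter]
  have notBig : ∀ {x}, x ∈ W → x ≠ c → x ∉ Big → (nb G W x).card = s := by
    intro x hx hxc hxB
    rw [memBig] at hxB
    have := hdeg x hx hxc
    by_contra hcon
    exact hxB ⟨hx, hxc, by omega⟩
  -- there is a big vertex
  have hBne : Big.Nonempty := by
    by_contra hcon
    rw [Finset.not_nonempty_iff_eq_empty] at hcon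
    obtain ⟨x, hx, hxc⟩ := hW
    have h1 := notBig hx hxc (by rw [hcon]; simp)
    have h2 : nb G W x ⊆ {c} := by
      intro y hy
      rw [Finset.mem_singleton]
      by_contra hyc
      rw [mem_nb] at hy
      exact hind x hx y hy.1 hxc hyc (by omega)
        (notBig hy.1 hyc (by rw [hcon]; simp)).le hy.2
    have := Finset.card_le_card h2
    rw [Finset.card_singleton] at this
    omega
  by_cases h1 : ∃ v ∈ Big, ¬ G.Adj v c
  · -- case 1
    obtain ⟨v0, hv0, hv0c⟩ := h1
    set F : Finset (Finset V) := W.powerset.filter (fun D => c ∈ D ∧ Conn G D ∧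
      ∃ v ∈ Big, v ∉ D ∧ ∀ x ∈ D, ¬ G.Adj v x) with hF
    have memF : ∀ {D : Finset V}, D ∈ F ↔ D ⊆ W ∧ c ∈ D ∧ Conn G D ∧
      ∃ v ∈ Big, v ∉ D ∧ ∀ x ∈ D, ¬ G.Adj v x := by
      intro D
      rw [hF, Finset.mem_filter, Finset.mem_powerset]
    have hFne : F.Nonempty := by
      refine ⟨{c}, memF.2 ⟨Finset.singleton_subset_iff.2 hc, Finset.mem_singleton_self _,
        conn_singleton c, v0, hv0, ?_, ?_⟩⟩
      · rw [Finset.mem_singleton]; exact (memBig.1 hv0).2.1
      · intro x hx
        rw [Finset.mem_singleton] at hx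
        rw [hx]; exact hv0c
    obtain ⟨D, hD, hDmax⟩ := Finset.exists_max_image F Finset.card hFne
    obtain ⟨d1, d2, d3, v, d4, d5, d6⟩ := memF.1 hD
    refine core hmin (W := W) (Big := Big) (D := D) (v := v) (Finset.filter_subset _ _) d1 d3
      (fun b hb => (memBig.1 hb).2.2) hsep d4 d5 d6 ?_ ?_
    · intro b hb D' hDD' hD'W hD'c hbD' hbD''
      exact hDmax D' (memF.2 ⟨hD'W, hDD' d2, hD'c, b, hb, hbD', hbD''⟩)
    · intro u hu huB huD huD'
      have huc : u ≠ c := fun h => huD (h ▸ d2)
      have hus := notBig hu huc huB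
      refine ⟨hus, ?_⟩
      intro x hx
      rw [mem_nb] at hx
      have hxc : x ≠ c := by
        rintro rfl
        exact huD' x d2 hx.2
      by_contra hxB
      exact hind u hu x hx.1 huc hxc hus.le (notBig hx.1 hxc hxB).le hx.2
  · push Not at h1
    by_cases h2 : s + 1 ≤ (nb G W c).card
    · -- case 2a
      set Big' : Finset V := W.filter (fun v => s + 1 ≤ (nb G W v).card) with hBig'
      have memBig' : ∀ {x}, x ∈ Big' ↔ x ∈ W ∧ s + 1 ≤ (nb G W x).card := by
        intro x
        rw [hBig', Finset.mem_filter]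
      have hcB : c ∈ Big' := memBig'.2 ⟨hc, h2⟩
      have notBig' : ∀ {x}, x ∈ W → x ∉ Big' → x ≠ c ∧ (nb G W x).card = s := by
        intro x hx hxB
        have hxc : x ≠ c := fun h => hxB (h ▸ hcB)
        refine ⟨hxc, notBig hx hxc ?_⟩
        intro h
        exact hxB (memBig'.2 ⟨hx, (memBig.1 h).2.2⟩)
      by_cases h3 : ∃ v ∈ Big', ∃ y ∈ W, y ≠ v ∧ ¬ G.Adj v y
      · obtain ⟨v0, hv0, y0, hy0, hy0v, hv0y⟩ := h3
        set F : Finset (Finset V) := W.powerset.filter (fun D => Conn G D ∧
          ∃ v ∈ Big', v ∉ D ∧ ∀ x ∈ D, ¬ G.Adj v x) with hF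
        have memF : ∀ {D : Finset V}, D ∈ F ↔ D ⊆ W ∧ Conn G D ∧
          ∃ v ∈ Big', v ∉ D ∧ ∀ x ∈ D, ¬ G.Adj v x := by
          intro D
          rw [hF, Finset.mem_filter, Finset.mem_powerset]
        have hFne : F.Nonempty := by
          refine ⟨{y0}, memF.2 ⟨Finset.singleton_subset_iff.2 hy0,
            conn_singleton y0, v0, hv0, ?_, ?_⟩⟩
          · rw [Finset.mem_singleton]; exact fun h => hy0v h.symm
          · intro x hx
            rw [Finset.mem_singleton] at hx
            rw [hx]; exact hv0y
        obtain ⟨D, hD, hDmax⟩ := Finset.exists_max_image F Finset.card hFne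
        obtain ⟨d1, d3, v, d4, d5, d6⟩ := memF.1 hD
        refine core hmin (W := W) (Big := Big') (D := D) (v := v) (Finset.filter_subset _ _)
          d1 d3 (fun b hb => (memBig'.1 hb).2) hsep d4 d5 d6 ?_ ?_
        · intro b hb D' _ hD'W hD'c hbD' hbD''
          exact hDmax D' (memF.2 ⟨hD'W, hD'c, b, hb, hbD', hbD''⟩)
        · intro u hu huB _ _
          obtain ⟨huc, hus⟩ := notBig' hu huB
          refine ⟨hus, ?_⟩
          intro x hx
          rw [mem_nb] at hx
          by_contra hxB
          obtain ⟨hxc, hxs⟩ := notBig' hx.1 hxB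
          exact hind u hu x hx.1 huc hxc hus.le hxs.le hx.2
      · push Not at h3
        obtain ⟨x, hx⟩ := hBne
        obtain ⟨x1, x2, x3⟩ := memBig.1 hx
        have hxB' : x ∈ Big' := memBig'.2 ⟨x1, x3⟩
        apply hmin
        apply adj_all_minor x1 hc (h1 x hx) (fun t ht htx => h3 x hxB' t ht htx)
          (fun t ht htc => h3 c hcB t ht htc)
        have h5 : nb G W c ⊆ W.erase c := by
          intro y hy
          rw [mem_nb] at hy
          exact Finset.mem_erase.2 ⟨hy.2.ne', hy.1⟩
        have := Finset.card_le_card h5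
        rw [Finset.card_erase_of_mem hc] at this
        omega
    · -- case 2b
      push Not at h2
      have hBc : Big ⊆ nb G W c := by
        intro x hx
        exact mem_nb.2 ⟨(memBig.1 hx).1, (h1 x hx).symm⟩
      have hBs : Big.card ≤ s := (Finset.card_le_card hBc).trans (by omega)
      have hBW : Big ⊆ W := Finset.filter_subset _ _
      have hcB : c ∉ Big := fun h => (memBig.1 h).2.1 rfl
      set S : Finset V := (W.erase c) \ Big with hS
      have memS : ∀ {x}, x ∈ S ↔ x ∈ W ∧ x ≠ c ∧ x ∉ Big := by
        intro x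
        rw [hS, Finset.mem_sdiff, Finset.mem_erase]
        tauto
      have hSc : S.card + Big.card + 1 = W.card := by
        have e1 : Big ⊆ W.erase c := fun x hx =>
          Finset.mem_erase.2 ⟨(memBig.1 hx).2.1, (memBig.1 hx).1⟩
        have e2 : S.card + Big.card = (W.erase c).card := by
          rw [hS]; exact Finset.card_sdiff_add_card_eq_card e1
        rw [e2]
        exact Finset.card_erase_add_one hc
      have hnS : ∀ u ∈ S, (nb G W u).card = s ∧ nb G W u ⊆ insert c Big := by
        intro u hu
        obtain ⟨u1, u2, u3⟩ := memS.1 hu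
        have hus := notBig u1 u2 u3
        refine ⟨hus, ?_⟩
        intro x hx
        rw [mem_nb] at hx
        rw [Finset.mem_insert]
        by_cases hxc : x = c
        · exact Or.inl hxc
        · right
          by_contra hxB
          exact hind u u1 x hx.1 u2 hxc hus.le (notBig hx.1 hxc hxB).le hx.2
      obtain ⟨x, hx⟩ := hBne
      have hxd : s + 1 ≤ Big.card + S.card := by
        have h5 : nb G W x ⊆ W.erase x := by
          intro y hy
          rw [mem_nb] at hy
          exact Finset.mem_erase.2 ⟨hy.2.ne', hy.1⟩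
        have := Finset.card_le_card h5
        rw [Finset.card_erase_of_mem (hBW hx)] at this
        have := (memBig.1 hx).2.2
        omega
      obtain ⟨u0, hu0⟩ : S.Nonempty := by
        rw [← Finset.card_pos]; omega
      have hci : (insert c Big).card = Big.card + 1 := Finset.card_insert_of_notMem hcB
      by_cases hlt : Big.card < s
      · -- every small vertex is adjacent to c
        have h6 : Big ∪ S ⊆ nb G W c := by
          intro y hy
          rw [Finset.mem_union] at hy
          rcases hy with hy | hy
          · exact hBc hy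
          · obtain ⟨e1, e2⟩ := hnS y hy
            have e3 : nb G W y = insert c Big :=
              Finset.eq_of_subset_of_card_le e2 (by omega)
            have e4 : c ∈ nb G W y := by rw [e3]; exact Finset.mem_insert_self _ _
            rw [mem_nb] at e4
            exact mem_nb.2 ⟨(memS.1 hy).1, e4.2.symm⟩
        have h7 := Finset.card_le_card h6
        rw [Finset.card_union_of_disjoint] at h7
        · omega
        · rw [Finset.disjoint_left]
          intro y hy hy'
          exact (memS.1 hy').2.2 hy
      · have hBeq : Big.card = s := by omega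
        have hcn : nb G W c = Big :=
          (Finset.eq_of_subset_of_card_le hBc (by omega)).symm
        have hSn : ∀ u ∈ S, nb G W u = Big := by
          intro u hu
          obtain ⟨e1, e2⟩ := hnS u hu
          apply Finset.eq_of_subset_of_card_le _ (by omega)
          intro y hy
          have e3 := e2 hy
          rw [Finset.mem_insert] at e3
          rcases e3 with rfl | e3
          · exfalso
            rw [mem_nb] at hy
            have : u ∈ nb G W y := mem_nb.2 ⟨(memS.1 hu).1, hy.2.symm⟩
            rw [hcn] at this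
            exact (memS.1 hu).2.2 this
          · exact e3
        apply hmin
        have hcS : c ∉ S := fun h => (memS.1 h).2.1 rfl
        apply outer_minor hs (Big := Big) (O := insert c S)
        · rw [Finset.disjoint_left]
          intro y hy hy'
          rw [Finset.mem_insert] at hy'
          rcases hy' with rfl | hy'
          · exact hcB hy
          · exact (memS.1 hy').2.2 hy
        · exact hBeq
        · rw [Finset.card_insert_of_notMem hcS]
          omega
        · intro o ho y hy
          rw [Finset.mem_insert] at ho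
          rcases ho with rfl | ho
          · exact (mem_nb.1 (hBc hy)).2
          · rw [← hSn o ho] at hy
            exact (mem_nb.1 hy).2
        · intro y hy
          have e1 := (memBig.1 hy).2.2
          have e2 : nb G W y ⊆ nb G Big y ∪ insert c S := by
            intro z hz
            rw [mem_nb] at hz
            rw [Finset.mem_union, mem_nb, Finset.mem_insert, memS]
            by_cases hzB : z ∈ Big
            · exact Or.inl ⟨hzB, hz.2⟩
            · by_cases hzc : z = c
              · exact Or.inr (Or.inl hzc)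
              · exact Or.inr (Or.inr ⟨hz.1, hzc, hzB⟩)
          have e3 := (Finset.card_le_card e2).trans (Finset.card_union_le _ _)
          omega

end Pool.Agent.MP3d61bb
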